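import Mathlib

namespace Pool.Agent.Results.MP_8ef15a_nt.Three

/-- `n` is antipalindromic in base 3: its digit string, read backwards with every digit `d`
replaced by `2 - d`, is the same string. -/
def Anti (n : ℕ) : Prop := 0 < n ∧ (Nat.digits 3 n).reverse.map (2 - ·) = Nat.digits 3 n

/-- The values of the antipalindromic strings of length `k`, leading zeros allowed. -/
def gl : ℕ → List ℕ
  | 0 => [0]
  | 1 => [1]
  | k + 2 => (gl k).flatMap fun g => [2 + 3 * g, 1 + 3 * g + 3 ^ (k + 1), 3 * g + 2 * 3 ^ (k + 1)]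

def GA (k n : ℕ) : Prop :=
  ∃ l : List ℕ, l.length = k ∧ (∀ d ∈ l, d < 3) ∧ l.reverse.map (2 - ·) = l ∧ Nat.ofDigits 3 l = n

lemma wrap_mem {k g u : ℕ} (hg : g ∈ gl k) (hu : u < 3) :
    2 - u + 3 * g + u * 3 ^ (k + 1) ∈ gl (k + 2) := by
  rw [gl, List.mem_flatMap]
  refine ⟨g, hg, ?_⟩
  interval_cases u <;> simp

lemma wrap {k g u : ℕ} (hg : GA k g) (hu : u < 3) :
    GA (k + 2) (2 - u + 3 * g + u * 3 ^ (k + 1)) ∧
      (0 < u → Anti (2 - u + 3 * g + u * 3 ^ (k + 1))) := by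
  obtain ⟨l, h1, h2, h3, rfl⟩ := hg
  have a2 : ∀ d ∈ (2 - u) :: (l ++ [u]), d < 3 := by
    intro d hd
    simp only [List.mem_cons, List.mem_append, List.not_mem_nil, or_false] at hd
    rcases hd with rfl | hd | rfl
    · omega
    · exact h2 d hd
    · exact hu
  have a3 : ((2 - u) :: (l ++ [u])).reverse.map (2 - ·) = (2 - u) :: (l ++ [u]) := by
    rw [List.reverse_cons, List.reverse_append, List.reverse_singleton, List.singleton_append,
      List.cons_append, List.map_cons, List.map_append, h3, List.map_singleton,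
      show 2 - (2 - u) = u by omega]
  have a4 : Nat.ofDigits 3 ((2 - u) :: (l ++ [u])) =
      2 - u + 3 * Nat.ofDigits 3 l + u * 3 ^ (k + 1) := by
    rw [Nat.ofDigits_cons, Nat.ofDigits_append, h1, Nat.ofDigits_singleton]; ring
  refine ⟨⟨_, by simp [h1], a2, a3, a4⟩, fun h0 => ⟨by positivity, ?_⟩⟩
  rw [← a4, Nat.digits_ofDigits 3 (by norm_num) _ a2 (by intro _; simp; omega), a3]

lemma gl_GA : ∀ k, ∀ g ∈ gl k, GA k g ∧ g % 2 = k % 2
  | 0 => by
    intro g hg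
    rw [gl, List.mem_singleton] at hg
    exact ⟨⟨[], rfl, by simp, rfl, by simp [hg]⟩, by simp [hg]⟩
  | 1 => by
    intro g hg
    rw [gl, List.mem_singleton] at hg
    exact ⟨⟨[1], rfl, by simp, rfl, by simp [hg]⟩, by simp [hg]⟩
  | k + 2 => by
    intro g hg
    rw [gl, List.mem_flatMap] at hg
    obtain ⟨x, hx, hg⟩ := hg
    obtain ⟨h1, h2⟩ := gl_GA k x hx
    have h3 : 3 ^ (k + 1) % 2 = 1 := by simp [Nat.pow_mod]
    simp only [List.mem_cons, List.not_mem_nil, or_false] at hg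
    rcases hg with rfl | rfl | rfl
    · exact ⟨by simpa using (wrap h1 (u := 0) (by norm_num)).1, by omega⟩
    · exact ⟨by simpa using (wrap h1 (u := 1) (by norm_num)).1, by omega⟩
    · exact ⟨by simpa using (wrap h1 (u := 2) (by norm_num)).1, by omega⟩

def bits (l : List ℕ) (m : ℕ) : ℕ := l.foldr (fun x acc => acc ||| (m <<< x)) 0

lemma bits_spec {m n : ℕ} : ∀ {l : List ℕ}, (bits l m).testBit n →
    ∃ x ∈ l, ∃ y, m.testBit y ∧ x + y = n
  | [], h => by simp [bits] at h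
  | x :: l, h => by
    rw [bits, List.foldr_cons, Nat.testBit_or, Bool.or_eq_true, Nat.testBit_shiftLeft] at h
    rcases h with h | h
    · obtain ⟨z, hz, r⟩ := bits_spec (l := l) h
      exact ⟨z, List.mem_cons_of_mem _ hz, r⟩
    · simp only [Bool.and_eq_true, decide_eq_true_eq] at h
      exact ⟨x, List.mem_cons_self, n - x, h.2, by omega⟩

lemma bits3 {l₁ l₂ l₃ : List ℕ} {n : ℕ} (h : (bits l₁ (bits l₂ (bits l₃ 1))).testBit n) :
    ∃ x ∈ l₁, ∃ y ∈ l₂, ∃ z ∈ l₃, x + y + z = n := by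
  obtain ⟨x, hx, a, h1, rfl⟩ := bits_spec h
  obtain ⟨y, hy, b, h2, rfl⟩ := bits_spec h1
  obtain ⟨z, hz, c, h3, rfl⟩ := bits_spec h2
  rw [Nat.testBit_one_eq_true_iff_self_eq_zero] at h3
  exact ⟨x, hx, y, hy, z, hz, by omega⟩

def ones (B lo hi : ℕ) : Bool := (B >>> lo) % 2 ^ (hi - lo) == 2 ^ (hi - lo) - 1

lemma ones_spec {B lo hi n : ℕ} (h : ones B lo hi) (h1 : lo ≤ n) (h2 : n < hi) : B.testBit n := by
  have := congrArg (·.testBit (n - lo)) (beq_iff_eq.1 h)
  simp only [Nat.testBit_mod_two_pow, Nat.testBit_shiftRight, Nat.testBit_two_pow_sub_one,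
    show lo + (n - lo) = n by omega, show n - lo < hi - lo by omega, decide_true,
    Bool.true_and] at this
  exact this

def S (a b k n : ℕ) : Prop := ∃ x ∈ gl k, ∃ y ∈ gl (k + a), ∃ z ∈ gl (k + b), x + y + z = n

def base (a b k al be : ℕ) : Bool :=
  ones (bits [0, 1] (bits (gl k) (bits (gl (k + a)) (bits (gl (k + b)) 1)))) (al * 3 ^ k)
    (be * 3 ^ k)

def fit (a b al be Y q r u v w : ℕ) : Bool :=
  (2 - u + (2 - v) + (2 - w)) % 3 == r && (u + 3 ^ a * v + 3 ^ b * w + al) * Y + 1 ≤ q &&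
    q + 1 ≤ (u + 3 ^ a * v + 3 ^ b * w + be) * Y

def step (a b al be : ℕ) : Bool :=
  (List.range (3 * be)).all fun q => q < 3 * al || (List.range 3).all fun r =>
    (List.range 3).any fun u => (List.range 3).any fun v => (List.range 3).any fun w =>
      fit a b al be 1 q r u v w

lemma split {a b al be Y X Z n u v w : ℕ} (hZ : 6 ≤ Z) (hX : 3 * X = Z * Y)
    (h : fit a b al be Y (n / Z) (n % 3) u v w) :
    ∃ m, al * X ≤ m ∧ m < be * X ∧
      n = 2 - u + (2 - v) + (2 - w) + 3 * m + 3 * (X * (u + 3 ^ a * v + 3 ^ b * w)) := by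
  simp only [fit, Bool.and_eq_true, beq_iff_eq, decide_eq_true_eq] at h
  obtain ⟨⟨h1, h2⟩, h3⟩ := h
  generalize u + 3 ^ a * v + 3 ^ b * w = t at *
  have e1 : Z * ((t + al) * Y + 1) ≤ n :=
    (Nat.mul_le_mul_left Z h2).trans (Nat.mul_div_le n Z)
  have e2 : n < Z * ((t + be) * Y) :=
    (Nat.lt_mul_div_succ n (by omega)).trans_le (Nat.mul_le_mul_left Z h3)
  have e3 : Z * ((t + al) * Y + 1) = 3 * (X * t) + 3 * (al * X) + Z := by
    calc _ = (t + al) * (Z * Y) + Z := by ring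
      _ = _ := by rw [← hX]; ring
  have e4 : Z * ((t + be) * Y) = 3 * (X * t) + 3 * (be * X) := by
    calc _ = (t + be) * (Z * Y) := by ring
      _ = _ := by rw [← hX]; ring
  refine ⟨(n - (2 - u + (2 - v) + (2 - w)) - 3 * (X * t)) / 3, ?_, ?_, ?_⟩ <;> omega

lemma par {a b k m u v w : ℕ} (hu : u < 3) (hv : v < 3) (hw : w < 3) :
    (2 - u + (2 - v) + (2 - w) + 3 * m + 3 * (3 ^ k * (u + 3 ^ a * v + 3 ^ b * w))) % 2 =
      m % 2 := by
  obtain ⟨x, hx⟩ : Odd (3 ^ k) := Odd.pow (by decide)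
  obtain ⟨y, hy⟩ : Odd (3 ^ a) := Odd.pow (by decide)
  obtain ⟨z, hz⟩ : Odd (3 ^ b) := Odd.pow (by decide)
  have : (2 * x + 1) * (u + (2 * y + 1) * v + (2 * z + 1) * w) =
    2 * (x * (u + (2 * y + 1) * v + (2 * z + 1) * w) + y * v + z * w) + u + v + w := by ring
  rw [hx, hy, hz, this]
  omega

lemma sum_eq (a b k x y z u v w : ℕ) :
    2 - u + 3 * x + u * 3 ^ (k + 1) + (2 - v + 3 * y + v * 3 ^ (k + a + 1)) +
      (2 - w + 3 * z + w * 3 ^ (k + b + 1)) =
    2 - u + (2 - v) + (2 - w) + 3 * (x + y + z) + 3 * (3 ^ k * (u + 3 ^ a * v + 3 ^ b * w)) := by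
  ring

lemma inv {a b k al be : ℕ} (hk : 1 ≤ k) (h1 : base a b k al be) (h2 : step a b al be) :
    ∀ i n, al * 3 ^ (k + 2 * i) ≤ n → n < be * 3 ^ (k + 2 * i) → n % 2 = (k + a + b) % 2 →
      S a b (k + 2 * i) n := by
  intro i
  induction i with
  | zero =>
    intro n e1 e2 e3
    obtain ⟨c, hc, m, h, rfl⟩ := bits_spec (ones_spec h1 e1 e2)
    obtain ⟨x, hx, y, hy, z, hz, rfl⟩ := bits3 h
    have := (gl_GA _ _ hx).2
    have := (gl_GA _ _ hy).2
    have := (gl_GA _ _ hz).2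
    simp only [List.mem_cons, List.not_mem_nil, or_false] at hc
    exact ⟨x, hx, y, hy, z, hz, by omega⟩
  | succ i ih =>
    intro n e1 e2 e3
    rw [show k + 2 * (i + 1) = k + 2 * i + 2 by ring] at *
    generalize hj : k + 2 * i = j at *
    have hX : 3 ^ 1 ≤ 3 ^ j := Nat.pow_le_pow_right (by norm_num) (by omega)
    have p1 : 3 * al ≤ n / (3 * 3 ^ j) := by
      rw [Nat.le_div_iff_mul_le (by positivity)]
      exact le_of_eq_of_le (by ring) e1
    have p2 : n / (3 * 3 ^ j) < 3 * be := by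
      rw [Nat.div_lt_iff_lt_mul (by positivity)]
      exact e2.trans_eq (by ring)
    simp only [step, List.all_eq_true, List.mem_range, Bool.or_eq_true, decide_eq_true_eq,
      List.any_eq_true] at h2
    obtain ⟨u, hu, v, hv, w, hw, hf⟩ :=
      (h2 _ p2).resolve_left (by omega) (n % 3) (Nat.mod_lt _ (by norm_num))
    obtain ⟨m, m1, m2, rfl⟩ := split (X := 3 ^ j) (by omega) (by ring) hf
    rw [par hu hv hw] at e3
    obtain ⟨x, hx, y, hy, z, hz, rfl⟩ := ih m m1 m2 e3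
    refine ⟨_, wrap_mem hx hu, _, ?_, _, ?_, sum_eq a b j x y z u v w⟩
    · rw [add_right_comm]; exact wrap_mem hy hv
    · rw [add_right_comm]; exact wrap_mem hz hw

def E : List (ℕ × ℕ × ℕ × ℕ × ℕ × ℕ) :=
  [(2, 5, 8, 5, 248, 1), (1, 4, 7, 3, 82, 2), (2, 4, 6, 2, 89, 1), (3, 5, 7, 8, 263, 0),
    (3, 4, 5, 15, 94, 0), (2, 3, 4, 5, 32, 1), (3, 4, 5, 15, 94, 2), (2, 3, 3, 8, 29, 2),
    (2, 3, 4, 5, 32, 3), (1, 2, 2, 2, 11, 3)]

lemma E_ok : (E.all fun (a, b, k, al, be, j) => (1 ≤ k && k ≤ 7 + j && (7 + j) % 2 == k % 2) &&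
    base a b k al be && step a b al be) = true := by decide +kernel

lemma top_ok : ((List.range 2187).all fun q => q < 243 || (List.range 3).all fun r =>
    (List.range 2).all fun p => E.any fun (a, b, k, al, be, j) => (k + a + b) % 2 == p &&
      [1, 2].any fun u => [1, 2].any fun v => [1, 2].any fun w =>
        fit a b al be (3 ^ j) q r u v w) = true := by decide +kernel

lemma large {n : ℕ} (hn : 3 ^ 13 ≤ n) : ∃ x y z, Anti x ∧ Anti y ∧ Anti z ∧ n = x + y + z := by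
  obtain ⟨i, e1, e2⟩ : ∃ i, 243 ≤ n / 3 ^ (8 + 2 * i) ∧ n / 3 ^ (8 + 2 * i) < 2187 := by
    refine ⟨Nat.log 9 (n / 3 ^ 13), ?_, ?_⟩
    · have := Nat.pow_log_le_self 9 (x := n / 3 ^ 13) (by omega)
      rw [Nat.le_div_iff_mul_le (by positivity)] at this ⊢
      refine le_of_eq_of_le ?_ this
      rw [pow_add, pow_mul]; ring
    · have := Nat.lt_pow_succ_log_self (b := 9) (by norm_num) (n / 3 ^ 13)
      rw [Nat.div_lt_iff_lt_mul (by positivity)] at this ⊢
      refine this.trans_eq ?_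
      rw [pow_add, pow_mul, pow_succ]; ring
  have h := top_ok
  have h' := E_ok
  simp only [List.all_eq_true, List.mem_range, Bool.or_eq_true, decide_eq_true_eq,
    List.any_eq_true, Bool.and_eq_true, beq_iff_eq] at h h'
  obtain ⟨⟨a, b, k, al, be, j⟩, he, hp, u, hu, v, hv, w, hw, hf⟩ :=
    (h _ e2).resolve_left (by omega) (n % 3) (Nat.mod_lt _ (by norm_num)) (n % 2)
      (Nat.mod_lt _ (by norm_num))
  obtain ⟨⟨⟨⟨k1, k2⟩, k3⟩, hb⟩, hs⟩ := h' _ he
  simp only [List.mem_cons, List.not_mem_nil, or_false] at hu hv hw hp k1 k2 k3 hb hs hf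
  obtain ⟨c, hc⟩ : ∃ c, 7 + j + 2 * i = k + 2 * c := ⟨(7 + j + 2 * i - k) / 2, by omega⟩
  have hX : 3 ^ 2 ≤ 3 ^ (8 + 2 * i) := Nat.pow_le_pow_right (by norm_num) (by omega)
  obtain ⟨m, m1, m2, rfl⟩ := split (X := 3 ^ (k + 2 * c)) (by omega) (by rw [← hc]; ring) hf
  have hu' : u < 3 := by omega
  have hv' : v < 3 := by omega
  have hw' : w < 3 := by omega
  rw [par hu' hv' hw'] at hp
  obtain ⟨x, hx, y, hy, z, hz, rfl⟩ := inv k1 hb hs c m m1 m2 hp.symm
  exact ⟨_, _, _, (wrap (gl_GA _ _ hx).1 hu').2 (by omega), (wrap (gl_GA _ _ hy).1 hv').2 (by omega),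
    (wrap (gl_GA _ _ hz).1 hw').2 (by omega), (sum_eq a b _ x y z u v w).symm⟩

def A : List ℕ := 0 :: 1 :: (List.range 12).flatMap fun k => (gl k).flatMap fun g =>
  [1 + 3 * g + 3 ^ (k + 1), 3 * g + 2 * 3 ^ (k + 1)]

lemma A_spec {x : ℕ} (h : x ∈ A) : x = 0 ∨ Anti x := by
  simp only [A, List.mem_cons, List.mem_flatMap, List.not_mem_nil, or_false] at h
  rcases h with h | rfl | ⟨k, -, g, hg, rfl | rfl⟩
  · exact .inl h
  · exact .inr ⟨by norm_num, by simp⟩
  · exact .inr (by simpa using (wrap (gl_GA _ _ hg).1 (u := 1) (by norm_num)).2)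
  · exact .inr (by simpa using (wrap (gl_GA _ _ hg).1 (u := 2) (by norm_num)).2)

lemma small_ok : ones (bits A (bits A (bits A 1)) ||| bits [24, 37, 49, 117, 421] 1) 0 (3 ^ 13) =
    true := by decide +kernel

theorem result (n : ℕ) (h0 : 0 < n) (h : n ∉ ({24, 37, 49, 117, 421} : Set ℕ)) :
    Anti n ∨ (∃ x y, Anti x ∧ Anti y ∧ n = x + y) ∨
      ∃ x y z, Anti x ∧ Anti y ∧ Anti z ∧ n = x + y + z := by
  rcases le_or_gt (3 ^ 13) n with hn | hn
  · exact .inr (.inr (large hn))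
  have := ones_spec small_ok (Nat.zero_le n) hn
  rw [Nat.testBit_or, Bool.or_eq_true] at this
  rcases this with h1 | h1
  · obtain ⟨x, hx, y, hy, z, hz, rfl⟩ := bits3 h1
    rcases A_spec hx with rfl | hx <;> rcases A_spec hy with rfl | hy <;>
      rcases A_spec hz with rfl | hz
    · omega
    · exact .inl (by simpa using hz)
    · exact .inl (by simpa using hy)
    · exact .inr (.inl ⟨y, z, hy, hz, by omega⟩)
    · exact .inl (by simpa using hx)
    · exact .inr (.inl ⟨x, z, hx, hz, by omega⟩)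
    · exact .inr (.inl ⟨x, y, hx, hy, by omega⟩)
    · exact .inr (.inr ⟨x, y, z, hx, hy, hz, rfl⟩)
  · obtain ⟨x, hx, y, hy, rfl⟩ := bits_spec h1
    rw [Nat.testBit_one_eq_true_iff_self_eq_zero] at hy
    subst hy
    exact absurd (by simpa using hx) h

end Pool.Agent.Results.MP_8ef15a_nt.Three
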